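import Pool.Agent.Helper32.OIP.Goals

set_option autoImplicit false

/-! Packet OIP-S2 (MP_fc0446_an). -/

open MeasureTheory Pool.Agent.Helper32.OIP Pool.Agent.Helper58.Orb
open scoped ENNReal

namespace Pool.Agent.Helper55.OIP

/-- Composition of two noises. -/
def cmb (p : Nz × Nz) : Nz := (p.1.1 || p.2.1, if p.2.1 then p.2.2 else p.1.2)

theorem meas_cmb : Measurable cmb := by
  unfold cmb
  refine Measurable.prodMk ?_ ?_
  · have h : Measurable fun b : Bool × Bool => (b.1 || b.2) := measurable_of_countable _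
    exact h.comp ((measurable_fst.comp measurable_fst).prodMk (measurable_fst.comp measurable_snd))
  · refine Measurable.ite ?_ ?_ ?_
    · have : MeasurableSet {p : Nz × Nz | p.2.1 = true} :=
        (measurable_fst.comp measurable_snd) (measurableSet_singleton true)
      exact this
    · exact measurable_snd.comp measurable_snd
    · exact measurable_snd.comp measurable_fst

theorem ber_apply (q : ℝ) (s : Set Bool) : ber q s =
    ENNReal.ofReal q * s.indicator 1 false + ENNReal.ofReal (1 - q) * s.indicator 1 true := by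
  have hs : MeasurableSet s := Set.Countable.measurableSet (Set.to_countable s)
  rw [ber, Measure.add_apply, Measure.smul_apply, Measure.smul_apply, Measure.dirac_apply' _ hs,
    Measure.dirac_apply' _ hs, smul_eq_mul, smul_eq_mul]

theorem mp_cmb (q : ℝ) (h0 : 0 ≤ q) (h1 : q ≤ 1) (hp : IsProbabilityMeasure (nz q)) :
    MeasurePreserving cmb ((nz q).prod (nz q)) (nz (q ^ 2)) := by
  refine ⟨meas_cmb, ?_⟩
  have hb2 : IsFiniteMeasure (ber (q ^ 2)) := by
    refine ⟨?_⟩
    rw [ber_apply]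
    exact ENNReal.add_lt_top.2 ⟨ENNReal.mul_lt_top ENNReal.ofReal_lt_top (by simp),
      ENNReal.mul_lt_top ENNReal.ofReal_lt_top (by simp)⟩
  have hb : IsFiniteMeasure (ber q) := by
    refine ⟨?_⟩
    rw [ber_apply]
    exact ENNReal.add_lt_top.2 ⟨ENNReal.mul_lt_top ENNReal.ofReal_lt_top (by simp),
      ENNReal.mul_lt_top ENNReal.ofReal_lt_top (by simp)⟩
  unfold nz
  refine (Measure.prod_eq ?_).symm
  intro s t hs ht
  rw [Measure.map_apply meas_cmb (hs.prod ht)]
  have hpre : cmb ⁻¹' (s ×ˢ t) =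
      (Set.univ ×ˢ ((s ∩ {true}) ×ˢ t)) ∪ ((s ×ˢ t) ×ˢ ({false} ×ˢ Set.univ)) := by
    ext ⟨⟨b1, u1⟩, ⟨b2, u2⟩⟩
    cases b2 <;> cases b1 <;> simp [cmb]
  have hst : MeasurableSet (s ∩ {true}) := Set.Countable.measurableSet (Set.to_countable _)
  have hR2 : MeasurableSet (((s ×ˢ t) ×ˢ (({false} : Set Bool) ×ˢ (Set.univ : Set unitInterval)))) :=
    (hs.prod ht).prod ((measurableSet_singleton false).prod MeasurableSet.univ)
  have hdis : Disjoint ((Set.univ : Set Nz) ×ˢ ((s ∩ {true}) ×ˢ t))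
      ((s ×ˢ t) ×ˢ (({false} : Set Bool) ×ˢ (Set.univ : Set unitInterval))) := by
    rw [Set.disjoint_left]
    rintro ⟨⟨b1, u1⟩, ⟨b2, u2⟩⟩ h h'
    simp only [Set.mem_prod, Set.mem_inter_iff, Set.mem_singleton_iff, Set.mem_univ] at h h'
    rw [h.2.1.2] at h'
    exact absurd h'.2.1 (by decide)
  rw [hpre, measure_union hdis hR2, Measure.prod_prod, Measure.prod_prod, Measure.prod_prod,
    Measure.prod_prod, Measure.prod_prod]
  have hu : ((ber q).prod (volume : Measure unitInterval)) Set.univ = 1 := hp.measure_univ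
  rw [hu, measure_univ (μ := (volume : Measure unitInterval)), ber_apply, ber_apply, ber_apply,
    ber_apply]
  have e1 : ENNReal.ofReal (q ^ 2) = ENNReal.ofReal q * ENNReal.ofReal q := by
    rw [pow_two, ENNReal.ofReal_mul h0]
  have e2 : ENNReal.ofReal (1 - q ^ 2) =
      ENNReal.ofReal (1 - q) + ENNReal.ofReal q * ENNReal.ofReal (1 - q) := by
    rw [← ENNReal.ofReal_mul h0, ← ENNReal.ofReal_add (by linarith) (mul_nonneg h0 (by linarith))]
    congr 1
    ring
  rw [e1, e2]
  by_cases hf : false ∈ s <;> by_cases ht' : true ∈ s <;> simp [hf, ht'] <;> ring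

/-- The three coordinate maps. -/
theorem mp_f1 (q : ℝ) (hp : IsProbabilityMeasure (nz q)) :
    MeasurePreserving (fun p : unitInterval × (Nz × Nz) => ((p.1, p.2.1) : E0))
      ((volume : Measure unitInterval).prod ((nz q).prod (nz q))) (nu q) := by
  have h := (MeasurePreserving.id (volume : Measure unitInterval)).prod
    (measurePreserving_fst (μ := nz q) (ν := nz q))
  exact h

theorem mp_f3 (q : ℝ) (h0 : 0 ≤ q) (h1 : q ≤ 1) (hp : IsProbabilityMeasure (nz q))
    (hp2 : IsProbabilityMeasure (nz (q ^ 2))) :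
    MeasurePreserving (fun p : unitInterval × (Nz × Nz) => ((p.1, cmb p.2) : E0))
      ((volume : Measure unitInterval).prod ((nz q).prod (nz q))) (nu (q ^ 2)) := by
  have h := (MeasurePreserving.id (volume : Measure unitInterval)).prod (mp_cmb q h0 h1 hp)
  exact h

theorem mp_f2 (q : ℝ) (hp : IsProbabilityMeasure (nz q)) (hpu : IsProbabilityMeasure (nu q))
    (hj : MeasurePreserving jn (nu q) (nu q)) :
    MeasurePreserving (fun p : unitInterval × (Nz × Nz) => (((jn (p.1, p.2.1)).1, p.2.2) : E0))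
      ((volume : Measure unitInterval).prod ((nz q).prod (nz q))) (nu q) := by
  have ha := (measurePreserving_prodAssoc (volume : Measure unitInterval) (nz q) (nz q)).symm
  have hr : MeasurePreserving (fun e : E0 => (jn e).1) (nu q) (volume : Measure unitInterval) := by
    have h1 : MeasurePreserving (Prod.fst : E0 → unitInterval) (nu q)
        (volume : Measure unitInterval) := measurePreserving_fst
    exact h1.comp hj
  have h2 : MeasurePreserving (Prod.map (fun e : E0 => (jn e).1) (id : Nz → Nz))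
      ((nu q).prod (nz q)) ((volume : Measure unitInterval).prod (nz q)) :=
    hr.prod (MeasurePreserving.id (nz q))
  have h3 := h2.comp ha
  exact h3

theorem meas_fs {C N : Type} [MeasurableSpace N] :
    Measurable (fs : (C → unitInterval × N) → Bern C) := by
  refine measurable_pi_iff.2 fun a => ?_
  exact measurable_fst.comp (measurable_pi_apply a)

theorem meas_ne {Ω C K : Type} [MeasurableSpace Ω] [Fintype K] (κ : Bern C → K)
    (hκ : ∀ k, MeasurableSet {x | κ x = k}) (F G : Ω → Bern C) (hF : Measurable F)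
    (hG : Measurable G) : MeasurableSet {z | κ (F z) ≠ κ (G z)} := by
  have h : {z | κ (F z) ≠ κ (G z)} = ⋃ k : K, (F ⁻¹' {x | κ x = k}) ∩ (G ⁻¹' {x | κ x = k})ᶜ := by
    ext z
    simp only [Set.mem_setOf_eq, Set.mem_iUnion, Set.mem_inter_iff, Set.mem_preimage,
      Set.mem_compl_iff]
    constructor
    · intro h
      exact ⟨κ (F z), rfl, fun h' => h h'.symm⟩
    · rintro ⟨k, h1, h2⟩ h
      exact h2 (h ▸ h1)
  rw [h]
  have : Countable K := inferInstance
  exact MeasurableSet.iUnion fun k => (hF (hκ k)).inter (hG (hκ k)).compl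

theorem dl_le (hMA1 : GoalMA1) (hS0 : GoalS0) (C K : Type) [Fintype K] (κ : Bern C → K)
    (hκ : ∀ k, MeasurableSet {x | κ x = k}) (q : ℝ) (h0 : 0 ≤ q) (h1 : q ≤ 1) :
    dl κ (q ^ 2) ≤ 2 * dl κ q := by
  obtain ⟨hA, -, -⟩ := hS0 hMA1
  obtain ⟨hpu, hp, hj, hJb⟩ := hA q h0 h1
  have h02 : 0 ≤ q ^ 2 := by positivity
  have h12 : q ^ 2 ≤ 1 := by nlinarith
  obtain ⟨hpu2, hp2, hj2, hJb2⟩ := hA (q ^ 2) h02 h12
  set μ3 : Measure (unitInterval × (Nz × Nz)) :=
    (volume : Measure unitInterval).prod ((nz q).prod (nz q)) with hμ3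
  have hμp : IsProbabilityMeasure μ3 := by
    rw [hμ3]
    infer_instance
  have M1 := hMA1.1 C (unitInterval × (Nz × Nz)) E0 μ3 (nu q)
    (fun _ p => ((p.1, p.2.1) : E0)) (fun _ => mp_f1 q hp)
  have M2 := hMA1.1 C (unitInterval × (Nz × Nz)) E0 μ3 (nu q)
    (fun _ p => (((jn (p.1, p.2.1)).1, p.2.2) : E0)) (fun _ => mp_f2 q hp hpu hj)
  have M3 := hMA1.1 C (unitInterval × (Nz × Nz)) E0 μ3 (nu (q ^ 2))
    (fun _ p => ((p.1, cmb p.2) : E0)) (fun _ => mp_f3 q h0 h1 hp hp2)
  have hms : ∀ r : ℝ, 0 ≤ r → r ≤ 1 → MeasurableSet {z : C → E0 | κ (fs z) ≠ κ (fs (Jb z))} := by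
    intro r hr0 hr1
    obtain ⟨hpr, hpr', hjr, hJr⟩ := hA r hr0 hr1
    exact meas_ne κ hκ _ _ meas_fs (meas_fs.comp (hJr C).measurable)
  have hmsq := hms q h0 h1
  have e1 : dl κ q = (pm C μ3).real {z | κ (fun c => (z c).1) ≠
      κ (fun c => (jn ((z c).1, (z c).2.1)).1)} := by
    unfold dl
    rw [measureReal_def, measureReal_def, ← M1.measure_preimage hmsq.nullMeasurableSet]
    rfl
  have e2 : dl κ q = (pm C μ3).real {z | κ (fun c => (jn ((z c).1, (z c).2.1)).1) ≠
      κ (fun c => (jn ((jn ((z c).1, (z c).2.1)).1, (z c).2.2)).1)} := by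
    unfold dl
    rw [measureReal_def, measureReal_def, ← M2.measure_preimage hmsq.nullMeasurableSet]
    rfl
  have e3 : dl κ (q ^ 2) = (pm C μ3).real {z | κ (fun c => (z c).1) ≠
      κ (fun c => (jn ((z c).1, cmb (z c).2)).1)} := by
    unfold dl
    rw [measureReal_def, measureReal_def, ← M3.measure_preimage hmsq.nullMeasurableSet]
    rfl
  have hc : ∀ z : C → unitInterval × (Nz × Nz), (fun c => (jn ((z c).1, cmb (z c).2)).1) =
      (fun c => (jn ((jn ((z c).1, (z c).2.1)).1, (z c).2.2)).1) := by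
    intro z
    funext c
    rcases z c with ⟨y, ⟨b1, u1⟩, ⟨b2, u2⟩⟩
    cases b1 <;> cases b2 <;> simp [jn, cmb]
  have hpm : IsProbabilityMeasure (pm C μ3) := by
    unfold pm
    infer_instance
  calc dl κ (q ^ 2) = (pm C μ3).real {z | κ (fun c => (z c).1) ≠
      κ (fun c => (jn ((z c).1, cmb (z c).2)).1)} := e3
    _ ≤ (pm C μ3).real ({z | κ (fun c => (z c).1) ≠ κ (fun c => (jn ((z c).1, (z c).2.1)).1)} ∪
        {z | κ (fun c => (jn ((z c).1, (z c).2.1)).1) ≠
          κ (fun c => (jn ((jn ((z c).1, (z c).2.1)).1, (z c).2.2)).1)}) := by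
        refine measureReal_mono ?_ (measure_ne_top _ _)
        intro z hz
        simp only [Set.mem_setOf_eq, hc z] at hz
        simp only [Set.mem_union, Set.mem_setOf_eq]
        by_contra hcon
        push Not at hcon
        exact hz (hcon.1.trans hcon.2)
    _ ≤ _ := measureReal_union_le _ _
    _ = 2 * dl κ q := by rw [← e1, ← e2]; ring

theorem s2 : GoalS2 := by
  intro hMA1 _ hS0
  refine ⟨fun C K _ κ hκ q h0 h1 => dl_le hMA1 hS0 C K κ hκ q h0 h1, ?_, ?_⟩
  · intro j
    unfold qj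
    rw [← Real.rpow_natCast, ← Real.rpow_mul (by norm_num)]
    congr 1
    push_cast
    ring
  · intro j
    unfold qj
    exact ⟨Real.rpow_pos_of_pos (by norm_num) _,
      Real.rpow_lt_one (by norm_num) (by norm_num) (by positivity)⟩

end Pool.Agent.Helper55.OIP
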